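import Mathlib
import Pool.Agent.H373R2.T7.SegEA
import Pool.Agent.H373R2.T7.SupLiou

/-!
# Chowla's conjecture for `g(T) (f(T) + m)`, for almost all constant terms `m`

Let `f` be a nonconstant integer polynomial of degree `d` and let `g` be any integer polynomial, for
instance `g = 1`. For all integers `|m| ≤ B x^d` outside a set of at most `x^d / (log x)^U` elements, the
sums of `λ(g(t) (f(t) + m))` over all initial segments of all arithmetic progressions of difference at
most `(log x)^K` are at most `x / (log x)^U`.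

The proof dualises the bilinear estimate of the starting files `Pool/Agent/H373R2/T7/`.
-/

set_option autoImplicit false

namespace Pool.Agent.Results.MP_648c71_nt.ConstantTerms

open Finset Polynomial Pool.Agent.H373R2.T7

/-- the Liouville function of an integer; `λ(-n) = λ(n)`, `λ(0) = 0` -/
noncomputable def lam (z : ℤ) : ℝ := if z = 0 then 0 else (-1) ^ ArithmeticFunction.cardFactors z.natAbs

/-- `∑ c(t) λ(f(t) + m)` over the `t` in the arithmetic progression `b mod q` with `1 ≤ t ≤ Y` -/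
noncomputable def S (c : ℕ → ℝ) (f : ℤ[X]) (m : ℤ) (q b Y : ℕ) : ℝ :=
  ∑ t ∈ (Icc 1 Y).filter (fun t => t ≡ b [MOD q]), c t * lam (f.eval (t : ℤ) + m)

/-- `∑ λ(F(t))` over the `t` in the arithmetic progression `b mod q` with `1 ≤ t ≤ Y` -/
noncomputable def P (F : ℤ[X]) (q b Y : ℕ) : ℝ :=
  ∑ t ∈ (Icc 1 Y).filter (fun t => t ≡ b [MOD q]), lam (F.eval (t : ℤ))

lemma lam_eq (z : ℤ) : ((lam z : ℝ) : ℂ) = exI liR z + exI liR (-z) := by
  unfold lam exI liR
  rcases lt_trichotomy z 0 with h | h | h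
  · rw [if_neg (by omega), if_neg (by omega), if_pos (by omega)]
    have : z.natAbs = (-z).toNat := by omega
    rw [this]
    push_cast
    ring
  · rw [if_pos h, if_neg (by omega), if_neg (by omega)]
    simp
  · rw [if_neg (by omega), if_pos (by omega), if_neg (by omega)]
    have : z.natAbs = z.toNat := by omega
    rw [this]
    push_cast
    ring

/-- the dual of the bilinear estimate -/
theorem dual (p B C W : ℕ) : ∃ N0 : ℕ, ∀ N : ℕ, N0 ≤ N → ∀ (x : ℕ) (s : ℕ → ℤ),
    (∀ m ∈ Icc 1 x, |s m| ≤ B * N) →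
    (energy p x s : ℝ) * N ≤ Real.log N ^ C * (x : ℝ) ^ (2 * p) →
    ∀ A : ℕ, A ≤ B * N → ∀ c : ℕ → ℂ, (∀ t, ‖c t‖ ≤ 1) →
    ∑ a ∈ Icc 1 A, ‖∑ t ∈ Icc 1 x, c t * exI liR (a + s t)‖ ≤ N * x / Real.log N ^ W := by
  obtain ⟨N0, h0⟩ := l1_e liR liR_norm sup_liou p B C W
  refine ⟨N0, fun N hN x s hs hE A hA c hc => ?_⟩
  set F : ℕ → ℂ := fun a => ∑ t ∈ Icc 1 x, c t * exI liR (a + s t) with hF
  set G : ℕ → ℂ := fun a => if F a = 0 then 0 else (starRingEnd ℂ (F a)) / ‖F a‖ with hG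
  have hG1 : ∀ a, ‖G a‖ ≤ 1 := by
    intro a
    rw [hG]
    dsimp only
    split_ifs with h
    · simp
    · rw [norm_div, RCLike.norm_conj, Complex.norm_real, norm_norm, div_self]
      exact norm_ne_zero_iff.2 h
  have hGF : ∀ a, ((‖F a‖ : ℝ) : ℂ) = G a * F a := by
    intro a
    rw [hG]
    dsimp only
    split_ifs with h
    · rw [h]; simp
    · have h1 : (‖F a‖ : ℂ) ≠ 0 := by exact_mod_cast norm_ne_zero_iff.2 h
      rw [div_mul_eq_mul_div, Complex.conj_mul', eq_div_iff h1]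
      ring
  have h1 : ((∑ a ∈ Icc 1 A, ‖F a‖ : ℝ) : ℂ) =
      ∑ t ∈ Icc 1 x, c t * ∑ a ∈ Icc 1 A, G a * exI liR (a + s t) := by
    push_cast
    calc ∑ a ∈ Icc 1 A, ((‖F a‖ : ℝ) : ℂ) = ∑ a ∈ Icc 1 A, ∑ t ∈ Icc 1 x, G a * (c t * exI liR (a + s t)) := by
          refine sum_congr rfl fun a _ => ?_
          rw [hGF a, hF, mul_sum]
      _ = _ := by
          rw [sum_comm]
          refine sum_congr rfl fun t _ => ?_
          rw [mul_sum]
          refine sum_congr rfl fun a _ => ?_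
          ring
  have h2 : (∑ a ∈ Icc 1 A, ‖F a‖) = ‖((∑ a ∈ Icc 1 A, ‖F a‖ : ℝ) : ℂ)‖ := by
    rw [Complex.norm_real, Real.norm_eq_abs, abs_of_nonneg (sum_nonneg fun _ _ => norm_nonneg _)]
  rw [h2, h1]
  refine (norm_sum_le _ _).trans ?_
  refine le_trans ?_ (h0 N hN x s hs hE A hA G hG1)
  refine sum_le_sum fun t _ => ?_
  rw [norm_mul]
  exact mul_le_of_le_one_left (norm_nonneg _) (hc t)

open Classical in
/-- few exceptional `a`, for all initial segments of all progressions -/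
theorem few (p B C K U : ℕ) : ∃ N0 : ℕ, ∀ N : ℕ, N0 ≤ N → ∀ (x : ℕ) (s : ℕ → ℤ),
    Real.log N ^ (U + 1) ≤ x → (∀ m ∈ Icc 1 x, |s m| ≤ B * N) →
    (energy p x s : ℝ) * N ≤ Real.log N ^ C * (x : ℝ) ^ (2 * p) →
    ∀ A : ℕ, A ≤ B * N → ∀ w : ℕ → ℂ, (∀ t, ‖w t‖ ≤ 1) →
    (((Icc 1 A).filter (fun a : ℕ => ∃ q b Y : ℕ, 1 ≤ q ∧ (q : ℝ) ≤ Real.log N ^ K ∧ Y ≤ x ∧
      (x : ℝ) / Real.log N ^ U <
        ‖∑ t ∈ (Icc 1 Y).filter (fun t => t ≡ b [MOD q]), w t * exI liR (a + s t)‖)).card : ℝ) ≤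
      N / Real.log N ^ U := by
  obtain ⟨N1, h1⟩ := dual p B C (2 * K + 3 * U + 4)
  have hev : ∀ᶠ N : ℕ in Filter.atTop, (16 : ℝ) ≤ Real.log N :=
    (Real.tendsto_log_atTop.comp tendsto_natCast_atTop_atTop).eventually_ge_atTop _
  obtain ⟨N2, h2⟩ := Filter.eventually_atTop.1 hev
  refine ⟨max N1 (max N2 3), fun N hN x s hx hs hE A hA w hw => ?_⟩
  have hN3 : 3 ≤ N := le_trans (le_trans (le_max_right _ _) (le_max_right _ _)) hN
  have hNr : (3 : ℝ) ≤ N := by exact_mod_cast hN3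
  have hN0 : (0 : ℝ) < N := by linarith
  have hL16 := h2 N (le_trans (le_trans (le_max_left _ _) (le_max_right _ _)) hN)
  set L := Real.log N with hL
  have hL1 : 1 ≤ L := by linarith
  have hL0 : 0 < L := by linarith
  have hLU : 0 < L ^ U := by positivity
  have hx0 : (0 : ℝ) < x := lt_of_lt_of_le (by positivity) hx
  have hxU : 16 * L ^ U ≤ x := by
    refine le_trans ?_ hx
    rw [pow_succ, mul_comm]
    exact mul_le_mul_of_nonneg_left hL16 hLU.le
  -- the grid
  set M : ℕ := ⌈4 * L ^ U⌉₊ with hM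
  have hM1 : 4 * L ^ U ≤ M := Nat.le_ceil _
  have hM2 : (M : ℝ) ≤ 4 * L ^ U + 1 := (Nat.ceil_lt_add_one (by positivity)).le
  have hM0 : (0 : ℝ) < M := lt_of_lt_of_le (by positivity) hM1
  have hM0' : 0 < M := by exact_mod_cast hM0
  set Q : ℕ := ⌊L ^ K⌋₊ with hQ
  have hQ1 : (Q : ℝ) ≤ L ^ K := Nat.floor_le (by positivity)
  -- the sums on the grid
  set c : ℕ × ℕ × ℕ → ℕ → ℂ := fun i t =>
    if t ≡ i.2.1 [MOD i.1] ∧ t ≤ i.2.2 * x / M then w t else 0 with hc
  have hc1 : ∀ i t, ‖c i t‖ ≤ 1 := by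
    intro i t
    rw [hc]
    dsimp only
    split_ifs
    · exact hw t
    · simp
  set bad : ℕ × ℕ × ℕ → Finset ℕ := fun i => (Icc 1 A).filter (fun a : ℕ =>
    (x : ℝ) / (2 * L ^ U) < ‖∑ t ∈ Icc 1 x, c i t * exI liR (a + s t)‖) with hbad
  have hcard : ∀ i, ((bad i).card : ℝ) ≤ 2 * N / L ^ (2 * K + 2 * U + 4) := by
    intro i
    have h3 := h1 N (le_trans (le_max_left _ _) hN) x s hs hE A hA (c i) (hc1 i)
    have h4 : ((bad i).card : ℝ) * ((x : ℝ) / (2 * L ^ U)) ≤ N * x / L ^ (2 * K + 3 * U + 4) := by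
      refine le_trans ?_ h3
      calc ((bad i).card : ℝ) * ((x : ℝ) / (2 * L ^ U)) = ∑ _a ∈ bad i, (x : ℝ) / (2 * L ^ U) := by
            rw [sum_const, nsmul_eq_mul]
        _ ≤ ∑ a ∈ bad i, ‖∑ t ∈ Icc 1 x, c i t * exI liR (a + s t)‖ := by
            refine sum_le_sum fun a ha => ?_
            exact (mem_filter.1 ha).2.le
        _ ≤ _ := sum_le_sum_of_subset_of_nonneg (filter_subset _ _) fun _ _ _ => norm_nonneg _
    have h5 : N * x / L ^ (2 * K + 3 * U + 4) =
        2 * N / L ^ (2 * K + 2 * U + 4) * ((x : ℝ) / (2 * L ^ U)) := by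
      have : L ^ (2 * K + 3 * U + 4) = L ^ (2 * K + 2 * U + 4) * L ^ U := by
        rw [← pow_add]; congr 1; ring
      rw [this]
      field_simp
    rw [h5] at h4
    exact le_of_mul_le_mul_right h4 (by positivity)
  have hsub : (Icc 1 A).filter (fun a : ℕ => ∃ q b Y : ℕ, 1 ≤ q ∧ (q : ℝ) ≤ L ^ K ∧ Y ≤ x ∧
      (x : ℝ) / L ^ U < ‖∑ t ∈ (Icc 1 Y).filter (fun t => t ≡ b [MOD q]), w t * exI liR (a + s t)‖) ⊆
      ((Icc 1 Q) ×ˢ ((range (Q + 1)) ×ˢ (range (M + 1)))).biUnion bad := by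
    intro a ha
    rw [mem_filter] at ha
    obtain ⟨ha1, q, b, Y, hq, hqK, hY, hbig⟩ := ha
    rw [mem_biUnion]
    -- the grid point below `Y`
    set j : ℕ := Y * M / x with hj
    have hxn : 0 < x := by exact_mod_cast hx0
    have hqQ : q ≤ Q := Nat.le_floor hqK
    have hjM : j ≤ M := by
      rw [hj]
      calc Y * M / x ≤ x * M / x := Nat.div_le_div_right (Nat.mul_le_mul_right _ hY)
        _ = M := Nat.mul_div_cancel_left _ hxn
    refine ⟨(q, b % q, j), ?_, ?_⟩
    · rw [mem_product, mem_product, mem_Icc, mem_range, mem_range]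
      have := Nat.mod_lt b hq
      refine ⟨⟨hq, hqQ⟩, ?_, ?_⟩
      · dsimp only; omega
      · dsimp only; omega
    · rw [hbad]
      dsimp only
      rw [mem_filter]
      refine ⟨ha1, ?_⟩
      set Z : ℕ := j * x / M with hZ
      have hZY : Z ≤ Y := by
        rw [hZ, hj]
        calc Y * M / x * x / M ≤ Y * M / M := Nat.div_le_div_right (Nat.div_mul_le_self _ _)
          _ = Y := Nat.mul_div_cancel _ hM0'
      have hYZ : ((Y : ℝ) - Z) ≤ x / M + 1 := by
        have e1 : (Y : ℝ) * M / x < j + 1 := by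
          have := Nat.lt_div_mul_add (a := Y * M) (b := x) hxn
          rw [div_lt_iff₀ hx0]
          have h7 : Y * M < (j + 1) * x := by
            rw [hj]
            calc Y * M < Y * M / x * x + x := this
              _ = (Y * M / x + 1) * x := by ring
          exact_mod_cast h7
        have e2 : (j : ℝ) * x / M < Z + 1 := by
          have := Nat.lt_div_mul_add (a := j * x) (b := M) hM0'
          rw [div_lt_iff₀ hM0]
          have h7 : j * x < (Z + 1) * M := by
            rw [hZ]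
            calc j * x < j * x / M * M + M := this
              _ = (j * x / M + 1) * M := by ring
          exact_mod_cast h7
        have e3 : (Y : ℝ) < (j + 1) * x / M := by
          rw [lt_div_iff₀ hM0]
          rwa [div_lt_iff₀ hx0] at e1
        have e4 : ((j : ℝ) + 1) * x / M = j * x / M + x / M := by ring
        linarith
      -- compare the two sums
      have h6 : ∑ t ∈ Icc 1 x, c (q, b % q, j) t * exI liR (a + s t) =
          ∑ t ∈ (Icc 1 Z).filter (fun t => t ≡ b [MOD q]), w t * exI liR (a + s t) := by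
        have hZx : Z ≤ x := hZY.trans hY
        rw [hc]
        dsimp only
        rw [← hZ]
        simp only [ite_mul, zero_mul]
        rw [← sum_filter]
        apply sum_congr _ (fun _ _ => rfl)
        ext t
        simp only [mem_filter, mem_Icc]
        constructor
        · rintro ⟨⟨h7, h8⟩, h9, h10⟩
          exact ⟨⟨h7, h10⟩, h9.trans (Nat.mod_modEq b q)⟩
        · rintro ⟨⟨h7, h8⟩, h9⟩
          exact ⟨⟨h7, h8.trans hZx⟩, h9.trans (Nat.mod_modEq b q).symm, h8⟩
      rw [h6]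
      have h7 : (Icc 1 Z).filter (fun t => t ≡ b [MOD q]) ⊆ (Icc 1 Y).filter (fun t => t ≡ b [MOD q]) :=
        filter_subset_filter _ (Icc_subset_Icc le_rfl hZY)
      have h8 := sum_sdiff (f := fun t => w t * exI liR ((a : ℤ) + s t)) h7
      have h9 : ‖∑ t ∈ (Icc 1 Y).filter (fun t => t ≡ b [MOD q]) \
          (Icc 1 Z).filter (fun t => t ≡ b [MOD q]), w t * exI liR ((a : ℤ) + s t)‖ ≤ (Y : ℝ) - Z := by
        refine (norm_sum_le _ _).trans ?_
        have h10 : ∀ z : ℤ, ‖exI liR z‖ ≤ 1 := by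
          intro z
          unfold exI
          split_ifs
          · exact liR_norm _
          · simp
        refine (sum_le_sum fun t _ => show ‖w t * exI liR ((a : ℤ) + s t)‖ ≤ 1 by
          rw [norm_mul]; exact mul_le_one₀ (hw t) (norm_nonneg _) (h10 _)).trans ?_
        rw [sum_const, nsmul_eq_mul, mul_one]
        have h11 : ((Icc 1 Y).filter (fun t => t ≡ b [MOD q]) \
          (Icc 1 Z).filter (fun t => t ≡ b [MOD q])).card ≤ Y - Z := by
          calc _ ≤ (Ioc Z Y).card := by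
                apply card_le_card
                intro t ht
                simp only [mem_sdiff, mem_filter, mem_Icc, mem_Ioc, not_and] at ht ⊢
                refine ⟨?_, ht.1.1.2⟩
                by_contra hc'
                exact ht.2 ⟨ht.1.1.1, by omega⟩ ht.1.2
            _ = Y - Z := by simp
        have h12 : (((Icc 1 Y).filter (fun t => t ≡ b [MOD q]) \
          (Icc 1 Z).filter (fun t => t ≡ b [MOD q])).card : ℝ) ≤ ((Y - Z : ℕ) : ℝ) := by
          exact_mod_cast h11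
        rw [Nat.cast_sub hZY] at h12
        exact h12
      have h10 : ‖∑ t ∈ (Icc 1 Y).filter (fun t => t ≡ b [MOD q]), w t * exI liR ((a : ℤ) + s t)‖ ≤
          ((Y : ℝ) - Z) + ‖∑ t ∈ (Icc 1 Z).filter (fun t => t ≡ b [MOD q]), w t * exI liR ((a : ℤ) + s t)‖ := by
        rw [← h8]
        refine (norm_add_le _ _).trans ?_
        linarith
      have h11 : (x : ℝ) / M ≤ x / (4 * L ^ U) := by
        apply div_le_div_of_nonneg_left hx0.le (by positivity) hM1
      have h12 : (1 : ℝ) ≤ x / (16 * L ^ U) := by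
        rw [le_div_iff₀ (by positivity)]
        linarith
      have e5 : (x : ℝ) / (4 * L ^ U) = (x / L ^ U) / 4 := by field_simp
      have e6 : (x : ℝ) / (16 * L ^ U) = (x / L ^ U) / 16 := by field_simp
      have e7 : (x : ℝ) / (2 * L ^ U) = (x / L ^ U) / 2 := by field_simp
      have h13 : 0 < (x : ℝ) / L ^ U := by positivity
      rw [e7]
      rw [e5] at h11
      rw [e6] at h12
      linarith
  have hI : (((Icc 1 Q) ×ˢ ((range (Q + 1)) ×ˢ (range (M + 1)))).card : ℝ) ≤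
      2 * L ^ (2 * K) * (6 * L ^ U) := by
    rw [card_product, card_product, Nat.card_Icc, card_range, card_range]
    push_cast
    have hLK : 1 ≤ L ^ K := one_le_pow₀ hL1
    have hLU1 : 1 ≤ L ^ U := one_le_pow₀ hL1
    have a1 : ((Q + 1 - 1 : ℕ) : ℝ) ≤ L ^ K := by
      rw [Nat.add_sub_cancel]
      exact hQ1
    have a2 : ((Q : ℝ) + 1) ≤ 2 * L ^ K := by linarith
    have a3 : ((M : ℝ) + 1) ≤ 6 * L ^ U := by linarith
    calc ((Q + 1 - 1 : ℕ) : ℝ) * (((Q : ℝ) + 1) * ((M : ℝ) + 1)) ≤ L ^ K * ((2 * L ^ K) * (6 * L ^ U)) := by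
          apply mul_le_mul a1 _ (by positivity) (by positivity)
          exact mul_le_mul a2 a3 (by positivity) (by positivity)
      _ = 2 * L ^ (2 * K) * (6 * L ^ U) := by ring
  calc _ ≤ ((((Icc 1 Q) ×ˢ ((range (Q + 1)) ×ˢ (range (M + 1)))).biUnion bad).card : ℝ) := by
        exact_mod_cast card_le_card hsub
    _ ≤ ∑ i ∈ (Icc 1 Q) ×ˢ ((range (Q + 1)) ×ˢ (range (M + 1))), ((bad i).card : ℝ) := by
        exact_mod_cast card_biUnion_le
    _ ≤ ∑ _i ∈ (Icc 1 Q) ×ˢ ((range (Q + 1)) ×ˢ (range (M + 1))), 2 * N / L ^ (2 * K + 2 * U + 4) :=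
        sum_le_sum fun i _ => hcard i
    _ = (((Icc 1 Q) ×ˢ ((range (Q + 1)) ×ˢ (range (M + 1)))).card : ℝ) *
        (2 * N / L ^ (2 * K + 2 * U + 4)) := by rw [sum_const, nsmul_eq_mul]
    _ ≤ (2 * L ^ (2 * K) * (6 * L ^ U)) * (2 * N / L ^ (2 * K + 2 * U + 4)) :=
        mul_le_mul_of_nonneg_right hI (by positivity)
    _ = (24 / L ^ 4) * (N / L ^ U) := by
        have : L ^ (2 * K + 2 * U + 4) = L ^ (2 * K) * L ^ U * L ^ U * L ^ 4 := by
          rw [← pow_add, ← pow_add, ← pow_add]; congr 1; ring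
        rw [this]
        field_simp
        ring
    _ ≤ 1 * (N / L ^ U) := by
        apply mul_le_mul_of_nonneg_right _ (by positivity)
        rw [div_le_one (by positivity)]
        have : (16 : ℝ) ^ 4 ≤ L ^ 4 := pow_le_pow_left₀ (by norm_num) hL16 4
        linarith
    _ = _ := one_mul _

lemma energy_affine (p x : ℕ) (s : ℕ → ℤ) (σ c : ℤ) (hσ : σ ≠ 0) :
    energy p x (fun t => σ * s t + c) = energy p x s := by
  unfold energy
  congr 1
  apply filter_congr
  intro q _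
  simp only [sum_add_distrib, ← mul_sum, add_left_inj]
  constructor
  · intro h
    exact mul_left_cancel₀ hσ h
  · intro h
    rw [h]

lemma energy_gen (f : ℤ[X]) (hd : 1 ≤ f.natDegree) : ∃ p : ℕ, ∃ C : ℝ, 0 < C ∧ ∀ x : ℕ, 1 ≤ x →
    (energy p x (fun m => f.eval (m : ℤ)) : ℝ) * (x : ℝ) ^ f.natDegree ≤ C * (x : ℝ) ^ (2 * p) := by
  rcases lt_trichotomy 0 f.leadingCoeff with h | h | h
  · exact energy_poly f hd h
  · exfalso
    have : f = 0 := leadingCoeff_eq_zero.1 h.symm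
    rw [this] at hd
    simp at hd
  · obtain ⟨p, C, hC, h1⟩ := energy_poly (-f) (by rwa [natDegree_neg]) (by rw [leadingCoeff_neg]; linarith)
    refine ⟨p, C, hC, fun x hx => ?_⟩
    have h2 := h1 x hx
    rw [natDegree_neg] at h2
    have h3 : energy p x (fun m => (-f).eval (m : ℤ)) = energy p x (fun m => f.eval (m : ℤ)) := by
      rw [← energy_affine p x (fun m => f.eval (m : ℤ)) (-1) 0 (by norm_num)]
      congr 1
      ext m
      simp
    rwa [h3] at h2

lemma lam_mul (a b : ℤ) : lam (a * b) = lam a * lam b := by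
  unfold lam
  by_cases ha : a = 0
  · simp [ha]
  by_cases hb : b = 0
  · simp [hb]
  rw [if_neg ha, if_neg hb, if_neg (mul_ne_zero ha hb), Int.natAbs_mul,
    ArithmeticFunction.cardFactors_mul (Int.natAbs_ne_zero.2 ha) (Int.natAbs_ne_zero.2 hb), pow_add]

lemma lam_le (a : ℤ) : |lam a| ≤ 1 := by
  unfold lam
  split_ifs
  · simp
  · rw [abs_pow, abs_neg, abs_one, one_pow]

open Classical in
/-- the number of integers `|m| ≤ B x ^ d`, with `d` the degree of `f`, for which
`|∑_{t ≤ Y, t ≡ b mod q} c(t) λ(f(t) + m)| ≤ x / (log x) ^ U` fails for some `Y ≤ x`, some `b` and some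
`1 ≤ q ≤ (log x) ^ K` -/
noncomputable def weighted (f : ℤ[X]) (c : ℕ → ℝ) (B K U x : ℕ) : ℕ :=
  ((Icc (-(B * x ^ f.natDegree : ℤ)) (B * x ^ f.natDegree : ℤ)).filter (fun m => ∃ q b Y : ℕ,
    1 ≤ q ∧ (q : ℝ) ≤ Real.log x ^ K ∧ Y ≤ x ∧ (x : ℝ) / Real.log x ^ U < |S c f m q b Y|)).card

open Classical in
/-- the number of integers `|m| ≤ B x ^ d`, with `d` the degree of `f`, for which
`|∑_{t ≤ Y, t ≡ b mod q} λ(g(t) (f(t) + m))| ≤ x / (log x) ^ U` fails for some `Y ≤ x`, some `b` and some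
`1 ≤ q ≤ (log x) ^ K` -/
noncomputable def exceptions (f g : ℤ[X]) (B K U x : ℕ) : ℕ :=
  ((Icc (-(B * x ^ f.natDegree : ℤ)) (B * x ^ f.natDegree : ℤ)).filter (fun m => ∃ q b Y : ℕ,
    1 ≤ q ∧ (q : ℝ) ≤ Real.log x ^ K ∧ Y ≤ x ∧
    (x : ℝ) / Real.log x ^ U < |P (g * (f + C m)) q b Y|)).card

lemma exceptions_eq (f g : ℤ[X]) (B K U x : ℕ) :
    exceptions f g B K U x = weighted f (fun t => lam (g.eval (t : ℤ))) B K U x := by
  classical
  have h : ∀ (m : ℤ) (q b Y : ℕ), P (g * (f + C m)) q b Y = S (fun t => lam (g.eval (t : ℤ))) f m q b Y := by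
    intro m q b Y
    unfold P S
    apply sum_congr rfl
    intro t _
    rw [eval_mul, eval_add, eval_C, lam_mul]
  unfold exceptions weighted
  congr 1
  apply filter_congr
  intro m _
  simp only [h]

theorem main (f : ℤ[X]) (hf : 1 ≤ f.natDegree) (B K U : ℕ) :
    ∃ x₀ : ℕ, ∀ x : ℕ, x₀ ≤ x → ∀ c : ℕ → ℝ, (∀ t, |c t| ≤ 1) →
      (weighted f c B K U x : ℝ) ≤ x ^ f.natDegree / Real.log x ^ U := by
  classical
  obtain ⟨p, C0, hC0, hE⟩ := energy_gen f hf
  obtain ⟨N0, h0⟩ := few p (cf f + 2 * B + 1) 1 K (U + 1)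
  set d := f.natDegree with hd
  -- the conditions on `x`
  have hlog : Filter.Tendsto (fun x : ℕ => Real.log x) Filter.atTop Filter.atTop :=
    Real.tendsto_log_atTop.comp tendsto_natCast_atTop_atTop
  have hev1 : ∀ᶠ x : ℕ in Filter.atTop, max 2 C0 ≤ Real.log x := hlog.eventually_ge_atTop _
  have hev2 : ∀ᶠ x : ℕ in Filter.atTop, ((d : ℝ) * Real.log x) ^ (U + 2) ≤ x := by
    have h1 : (fun x : ℝ => Real.log x ^ (U + 2)) =o[Filter.atTop] (fun x : ℝ => x) := by
      have := isLittleO_log_rpow_rpow_atTop (s := 1) ((U + 2 : ℕ) : ℝ) one_pos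
      simp only [Real.rpow_natCast, Real.rpow_one] at this
      exact this
    have h2 := h1.def (c := 1 / (d : ℝ) ^ (U + 2)) (by
      have : (0 : ℝ) < d := by exact_mod_cast hf
      positivity)
    have h3 := tendsto_natCast_atTop_atTop (R := ℝ) |>.eventually h2
    filter_upwards [h3, hev1] with x hx hx1
    have hl : 0 ≤ Real.log x := le_trans (by positivity) ((le_max_left _ _).trans hx1)
    have hd0 : (0 : ℝ) < d := by exact_mod_cast hf
    rw [Real.norm_eq_abs, Real.norm_eq_abs, abs_of_nonneg (by positivity),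
      abs_of_nonneg (by positivity), one_div, inv_mul_eq_div, le_div_iff₀ (by positivity)] at hx
    rw [mul_pow]
    linarith
  obtain ⟨x1, hx1⟩ := Filter.eventually_atTop.1 (hev1.and hev2)
  refine ⟨max x1 (max N0 2), fun x hx c hc => ?_⟩
  have hxN0 : N0 ≤ x := le_trans (le_trans (le_max_left _ _) (le_max_right _ _)) hx
  have hx2 : 2 ≤ x := le_trans (le_trans (le_max_right _ _) (le_max_right _ _)) hx
  obtain ⟨hL, hpow⟩ := hx1 x (le_trans (le_max_left _ _) hx)
  have hL2 : 2 ≤ Real.log x := (le_max_left _ _).trans hL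
  have hLC : C0 ≤ Real.log x := (le_max_right _ _).trans hL
  set L := Real.log x with hLdef
  set N : ℕ := x ^ d with hN
  have hxN : x ≤ N := by
    rw [hN]
    exact Nat.le_self_pow (by omega) x
  have hN1 : 1 ≤ N := by omega
  have hLN : Real.log N = d * L := by
    rw [hN]
    push_cast
    rw [Real.log_pow]
  have hd1 : (1 : ℝ) ≤ d := by exact_mod_cast hf
  have hLLN : L ≤ Real.log N := by
    rw [hLN]
    nlinarith
  set LN := Real.log N with hLNdef
  have hLN2 : 2 ≤ LN := hL2.trans hLLN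
  have hx0 : (0 : ℝ) < x := by
    have : 0 < x := by omega
    exact_mod_cast this
  set R : ℕ := B * N with hR
  have hRz : (B * x ^ d : ℤ) = (R : ℤ) := by rw [hR, hN]; push_cast; ring
  -- the two families
  set s : ℤ → ℕ → ℤ := fun σ t => σ * f.eval (t : ℤ) + (-(R : ℤ) - 1) with hs
  set bad : ℤ → Finset ℕ := fun σ => (Icc 1 (2 * R + 1)).filter (fun a : ℕ => ∃ q b Y : ℕ,
    1 ≤ q ∧ (q : ℝ) ≤ LN ^ K ∧ Y ≤ x ∧ (x : ℝ) / LN ^ (U + 1) <
      ‖∑ t ∈ (Icc 1 Y).filter (fun t => t ≡ b [MOD q]), ((c t : ℝ) : ℂ) * exI liR (a + s σ t)‖) with hbad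
  have hcard : ∀ σ : ℤ, (σ = 1 ∨ σ = -1) → ((bad σ).card : ℝ) ≤ N / LN ^ (U + 1) := by
    intro σ hσ
    have hσ0 : σ ≠ 0 := by rcases hσ with h | h <;> rw [h] <;> norm_num
    have hσ1 : |σ| = 1 := by rcases hσ with h | h <;> rw [h] <;> norm_num
    refine h0 N (hxN0.trans hxN) x (s σ) ?_ ?_ ?_ (2 * R + 1) ?_ (fun t => ((c t : ℝ) : ℂ)) ?_
    · rw [← hLNdef, hLN]
      exact hpow
    · intro m hm
      rw [mem_Icc] at hm
      have h2 : |σ * f.eval (m : ℤ)| ≤ (cf f : ℤ) * N := by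
        rw [abs_mul, hσ1, one_mul]
        refine (abs_eval_le f m hm.1).trans ?_
        have h3 : m ^ d ≤ N := by rw [hN]; exact Nat.pow_le_pow_left hm.2 _
        have h4 : (m : ℤ) ^ d ≤ (N : ℤ) := by exact_mod_cast h3
        exact mul_le_mul_of_nonneg_left h4 (by positivity)
      have h5 : |(-(R : ℤ) - 1)| = R + 1 := by
        rw [show (-(R : ℤ) - 1) = -((R : ℤ) + 1) by ring, abs_neg, abs_of_nonneg (by positivity)]
      have h6 : (R : ℤ) = B * N := by rw [hR]; push_cast; ring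
      have h7 : (1 : ℤ) ≤ N := by exact_mod_cast hN1
      calc |s σ m| ≤ |σ * f.eval (m : ℤ)| + |(-(R : ℤ) - 1)| := abs_add_le _ _
        _ ≤ (cf f : ℤ) * N + (B * N + 1) := by rw [h5, h6]; linarith
        _ ≤ ((cf f + 2 * B + 1 : ℕ) : ℤ) * N := by
            push_cast
            have h8 : (0 : ℤ) ≤ (B : ℤ) * N := by positivity
            nlinarith
    · have h2 : energy p x (s σ) = energy p x (fun m => f.eval (m : ℤ)) := by
        rw [hs]
        exact energy_affine p x (fun m => f.eval (m : ℤ)) σ _ hσ0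
      rw [h2, ← hLNdef, pow_one]
      have h3 := hE x (by omega)
      have h4 : ((N : ℕ) : ℝ) = (x : ℝ) ^ d := by rw [hN]; push_cast; ring
      rw [h4]
      refine h3.trans ?_
      exact mul_le_mul_of_nonneg_right (hLC.trans hLLN) (by positivity)
    · rw [hR]
      nlinarith [Nat.zero_le (cf f * N)]
    · intro t
      rw [Complex.norm_real, Real.norm_eq_abs]
      exact hc t
  -- the exceptional `m`
  have hsub : (Icc (-(B * x ^ d : ℤ)) (B * x ^ d : ℤ)).filter (fun m => ∃ q b Y : ℕ,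
      1 ≤ q ∧ (q : ℝ) ≤ L ^ K ∧ Y ≤ x ∧ (x : ℝ) / L ^ U < |S c f m q b Y|) ⊆
      (bad 1).image (fun a : ℕ => (a : ℤ) - R - 1) ∪ (bad (-1)).image (fun a : ℕ => (R : ℤ) + 1 - a) := by
    intro m hm
    rw [mem_filter, hRz, mem_Icc] at hm
    obtain ⟨hm1, q, b, Y, hq, hqK, hY, hbig⟩ := hm
    have hLNK : L ^ K ≤ LN ^ K := pow_le_pow_left₀ (by linarith) hLLN K
    have hS : ((S c f m q b Y : ℝ) : ℂ) =
        ∑ t ∈ (Icc 1 Y).filter (fun t => t ≡ b [MOD q]), ((c t : ℝ) : ℂ) * exI liR (f.eval (t : ℤ) + m) +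
        ∑ t ∈ (Icc 1 Y).filter (fun t => t ≡ b [MOD q]),
          ((c t : ℝ) : ℂ) * exI liR (-(f.eval (t : ℤ) + m)) := by
      rw [← sum_add_distrib]
      unfold S
      push_cast
      apply sum_congr rfl
      intro t _
      rw [lam_eq, mul_add]
    have habs : |S c f m q b Y| = ‖((S c f m q b Y : ℝ) : ℂ)‖ := by
      rw [Complex.norm_real, Real.norm_eq_abs]
    have hthr : 2 * ((x : ℝ) / LN ^ (U + 1)) ≤ x / L ^ U := by
      have e1 : 2 * L ^ U ≤ LN ^ (U + 1) := by
        rw [pow_succ, mul_comm]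
        exact mul_le_mul (pow_le_pow_left₀ (by linarith) hLLN U) hLN2 (by norm_num) (by positivity)
      rw [← mul_div_assoc, div_le_div_iff₀ (by positivity) (by positivity)]
      nlinarith
    rw [mem_union]
    by_cases hc1 : (x : ℝ) / LN ^ (U + 1) <
        ‖∑ t ∈ (Icc 1 Y).filter (fun t => t ≡ b [MOD q]), ((c t : ℝ) : ℂ) * exI liR (f.eval (t : ℤ) + m)‖
    · left
      rw [mem_image]
      refine ⟨(m + R + 1).toNat, ?_, by omega⟩
      rw [hbad]
      dsimp only
      rw [mem_filter, mem_Icc]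
      refine ⟨by omega, q, b, Y, hq, hqK.trans hLNK, hY, ?_⟩
      have e1 : ∀ t : ℕ, ((m + R + 1).toNat : ℤ) + s 1 t = f.eval (t : ℤ) + m := by
        intro t
        rw [hs]
        dsimp only
        have : ((m + R + 1).toNat : ℤ) = m + R + 1 := by omega
        rw [this]
        ring
      simp only [e1]
      exact hc1
    · right
      rw [mem_image]
      refine ⟨(-m + R + 1).toNat, ?_, by omega⟩
      rw [hbad]
      dsimp only
      rw [mem_filter, mem_Icc]
      refine ⟨by omega, q, b, Y, hq, hqK.trans hLNK, hY, ?_⟩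
      have hc2 : (x : ℝ) / LN ^ (U + 1) < ‖∑ t ∈ (Icc 1 Y).filter (fun t => t ≡ b [MOD q]),
          ((c t : ℝ) : ℂ) * exI liR (-(f.eval (t : ℤ) + m))‖ := by
        rw [habs, hS] at hbig
        have := hbig.trans_le (norm_add_le _ _)
        rw [not_lt] at hc1
        linarith
      have e1 : ∀ t : ℕ, ((-m + R + 1).toNat : ℤ) + s (-1) t = -(f.eval (t : ℤ) + m) := by
        intro t
        rw [hs]
        dsimp only
        have : ((-m + R + 1).toNat : ℤ) = -m + R + 1 := by omega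
        rw [this]
        ring
      simp only [e1]
      exact hc2
  have hfin : (weighted f c B K U x : ℝ) ≤ ((bad 1).card : ℝ) + ((bad (-1)).card : ℝ) := by
    unfold weighted
    have h2 := (card_le_card hsub).trans (card_union_le _ _)
    have h3 := h2.trans (add_le_add card_image_le card_image_le)
    exact_mod_cast h3
  have h4 : ((N : ℕ) : ℝ) = (x : ℝ) ^ d := by rw [hN]; push_cast; ring
  have h5 : (N : ℝ) / LN ^ (U + 1) + (N : ℝ) / LN ^ (U + 1) ≤ N / L ^ U := by
    have e1 : 2 * L ^ U ≤ LN ^ (U + 1) := by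
      rw [pow_succ, mul_comm]
      exact mul_le_mul (pow_le_pow_left₀ (by linarith) hLLN U) hLN2 (by norm_num) (by positivity)
    have e2 : (N : ℝ) / LN ^ (U + 1) + (N : ℝ) / LN ^ (U + 1) = 2 * N / LN ^ (U + 1) := by ring
    rw [e2, div_le_div_iff₀ (by positivity) (by positivity)]
    have : (0 : ℝ) ≤ N := by positivity
    nlinarith
  rw [← h4]
  refine hfin.trans (le_trans ?_ h5)
  exact add_le_add (hcard 1 (Or.inl rfl)) (hcard (-1) (Or.inr rfl))

/-- Let `f` be a nonconstant integer polynomial of degree `d` and fix `B`, `K`, `U`. For all large `x`: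

* (polynomials) for every integer polynomial `g` (for instance `g = 1`), all integers `|m| ≤ B x ^ d` but
  at most `x ^ d / (log x) ^ U` satisfy
  `|∑_{t ≤ Y, t ≡ b mod q} λ(g(t) (f(t) + m))| ≤ x / (log x) ^ U`
  for all `Y ≤ x`, all `b` and all `1 ≤ q ≤ (log x) ^ K`;
* (weights) more generally `λ(g(t))` may be replaced by any real weights `c(t)` with `|c(t)| ≤ 1`. -/
theorem result (f : ℤ[X]) (hf : 1 ≤ f.natDegree) (B K U : ℕ) :
    ∃ x₀ : ℕ, ∀ x : ℕ, x₀ ≤ x →
      (∀ g : ℤ[X], (exceptions f g B K U x : ℝ) ≤ x ^ f.natDegree / Real.log x ^ U) ∧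
      (∀ c : ℕ → ℝ, (∀ t, |c t| ≤ 1) →
        (weighted f c B K U x : ℝ) ≤ x ^ f.natDegree / Real.log x ^ U) := by
  obtain ⟨x₀, h⟩ := main f hf B K U
  refine ⟨x₀, fun x hx => ⟨fun g => ?_, fun c hc => h x hx c hc⟩⟩
  rw [exceptions_eq]
  exact h x hx _ fun t => lam_le _

end Pool.Agent.Results.MP_648c71_nt.ConstantTerms
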