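import Mathlib
import Pool.Agent.H410R4.PCf

set_option autoImplicit false

namespace Pool.Agent.Results.MP_648c71_nt.PureCubicSigns

/-- `Ω_P(n)`: the number of prime factors of `n` that lie in the set `P`, counted with
multiplicity. -/
noncomputable def OmegaIn (P : Set ℕ) (n : ℕ) : ℕ := by
  classical exact (n.primeFactorsList.filter (fun p => p ∈ P)).length

/-- **Liouville's function at `T³ + k (d e)³` takes both signs infinitely often.**
For every nonzero integer `k` and every set `P` of natural numbers containing `2` there is a nonzero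
integer `d` such that, for every `e ≥ 1`, the polynomial `f(T) = T³ + k (d e)³` has infinitely many
positive integers `m` with `Ω_P(|f(m)|)` even and infinitely many with `Ω_P(|f(m)|)` odd.
In particular (first part, the case where `P` consists of all natural numbers) `λ(f(m)) = 1` and
`λ(f(m)) = -1` both hold infinitely often. -/
theorem result (k : ℤ) (hk : k ≠ 0) :
    (∃ d : ℤ, d ≠ 0 ∧ ∀ e : ℕ, 0 < e →
      {m : ℕ | 0 < m ∧ (-1 : ℤ) ^ (ArithmeticFunction.cardFactors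
        ((m : ℤ) ^ 3 + k * (d * e) ^ 3).natAbs) = 1}.Infinite ∧
      {m : ℕ | 0 < m ∧ (-1 : ℤ) ^ (ArithmeticFunction.cardFactors
        ((m : ℤ) ^ 3 + k * (d * e) ^ 3).natAbs) = -1}.Infinite) ∧
    ∀ P : Set ℕ, 2 ∈ P → ∃ d : ℤ, d ≠ 0 ∧ ∀ e : ℕ, 0 < e →
      {m : ℕ | 0 < m ∧ Even (OmegaIn P ((m : ℤ) ^ 3 + k * (d * e) ^ 3).natAbs)}.Infinite ∧
      {m : ℕ | 0 < m ∧ Odd (OmegaIn P ((m : ℤ) ^ 3 + k * (d * e) ^ 3).natAbs)}.Infinite := by
  have pos : ∀ s : Set ℕ, s.Infinite → {m : ℕ | 0 < m ∧ m ∈ s}.Infinite := by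
    intro s hs
    have h := hs.sdiff (Set.finite_singleton 0)
    refine h.mono ?_
    intro m hm
    exact ⟨Nat.pos_of_ne_zero (fun h0 => hm.2 (by simp [h0])), hm.1⟩
  have hP : ∀ P : Set ℕ, 2 ∈ P → ∃ d : ℤ, d ≠ 0 ∧ ∀ e : ℕ, 0 < e →
      {m : ℕ | 0 < m ∧ Even (OmegaIn P ((m : ℤ) ^ 3 + k * (d * e) ^ 3).natAbs)}.Infinite ∧
      {m : ℕ | 0 < m ∧ Odd (OmegaIn P ((m : ℤ) ^ 3 + k * (d * e) ^ 3).natAbs)}.Infinite := by
    intro P h2
    obtain ⟨d, hd, h⟩ := Pool.Agent.H410R4.PC.main P h2 k hk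
    refine ⟨d, hd, fun e he => ⟨?_, ?_⟩⟩
    · exact pos _ (h e he).1
    · exact pos _ (h e he).2
  refine ⟨?_, hP⟩
  obtain ⟨d, hd, h⟩ := hP Set.univ (Set.mem_univ _)
  have hO : ∀ n : ℕ, OmegaIn Set.univ n = ArithmeticFunction.cardFactors n := by
    intro n
    classical
    unfold OmegaIn
    rw [ArithmeticFunction.cardFactors_apply]
    simp
  refine ⟨d, hd, fun e he => ⟨?_, ?_⟩⟩
  · refine (h e he).1.mono ?_
    rintro m ⟨hm, hm'⟩
    refine ⟨hm, ?_⟩
    rw [hO] at hm'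
    exact hm'.neg_one_pow
  · refine (h e he).2.mono ?_
    rintro m ⟨hm, hm'⟩
    refine ⟨hm, ?_⟩
    rw [hO] at hm'
    exact hm'.neg_one_pow

end Pool.Agent.Results.MP_648c71_nt.PureCubicSigns
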